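import Pool.Agent.Q60.DG.Num

/-!
# Moments up to order three do not determine complex discrete Gaussians

For `u = 0` and `B = β 1` the odd moments vanish and the second moments are the values of the function
`G(q) = (∑ k² q^(k²)) / (∑ q^(k²))` at `q = exp (- π β)`. This function takes a real value at a point `q`
of the unit disc which is not real, so the parameters given by `q` and by its complex conjugate have
the same moments up to order three.
-/

set_option autoImplicit false

namespace Pool.Agent.Results.MP_e16cda_ag.ThreeMomentsFail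

open Pool.Agent.Q60.DG Complex

/-- In every dimension `g ≥ 1` there are two different discrete Gaussians, with parameters `(0, B)` and
`(0, B')`, whose moments up to order three agree. -/
theorem result (g : ℕ) (hg : 1 ≤ g) :
    ∃ B B' : Matrix (Fin g) (Fin g) ℂ, IsParam B ∧ IsParam B' ∧ theta 0 B ≠ 0 ∧ theta 0 B' ≠ 0 ∧
      (∀ α : Fin g → ℕ, ∑ i, α i ≤ 3 → moment 0 B α = moment 0 B' α) ∧ gauss 0 B ≠ gauss 0 B' := by
  obtain ⟨q, hq0, hq1, him, hA, hreal⟩ := exists_q
  set q' : ℂ := (starRingEnd ℂ) q with hq'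
  have hq'0 : q' ≠ 0 := by
    rw [hq']
    exact (map_ne_zero _).2 hq0
  have hq'1 : ‖q'‖ < 1 := by rwa [hq', Complex.norm_conj]
  have hpar : ∀ z : ℂ, z ≠ 0 → ‖z‖ < 1 → ∃ β : ℂ, 0 < β.re ∧ cexp (-Real.pi * β) = z := by
    intro z hz0 hz1
    refine ⟨-(Complex.log z) / Real.pi, ?_, ?_⟩
    · rw [Complex.div_ofReal_re, Complex.neg_re, Complex.log_re]
      have := Real.log_neg (norm_pos_iff.2 hz0) hz1
      exact div_pos (by linarith) Real.pi_pos
    · have h : -(Real.pi : ℂ) * (-(Complex.log z) / Real.pi) = Complex.log z := by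
        have : (Real.pi : ℂ) ≠ 0 := by exact_mod_cast Real.pi_ne_zero
        field_simp
      rw [h, Complex.exp_log hz0]
  obtain ⟨β, hβ, hβq⟩ := hpar q hq0 hq1
  obtain ⟨β', hβ', hβq'⟩ := hpar q' hq'0 hq'1
  have hA' : A 0 q' ≠ 0 := by
    rw [hq', A_conj]
    exact (map_ne_zero _).2 hA
  have e0 : A 0 q / A 0 q = A 0 q' / A 0 q' := by rw [div_self hA, div_self hA']
  have e1 : ∀ m, Odd m → A m q / A 0 q = A m q' / A 0 q' := by
    intro m hm
    rw [A_odd m hm, A_odd m hm, zero_div, zero_div]
  have e2 : A 2 q / A 0 q = A 2 q' / A 0 q' := by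
    rw [hq', A_conj, A_conj, ← map_div₀, hreal]
  have hθ : theta 0 (Bmat g β) ≠ 0 := by
    rw [theta_Bmat (by rwa [hβq]), hβq]
    exact pow_ne_zero _ hA
  have hθ' : theta 0 (Bmat g β') ≠ 0 := by
    rw [theta_Bmat (by rwa [hβq']), hβq']
    exact pow_ne_zero _ hA'
  refine ⟨Bmat g β, Bmat g β', isParam_Bmat hβ, isParam_Bmat hβ', hθ, hθ', ?_, ?_⟩
  · intro α hα
    rw [moment_Bmat (by rwa [hβq]), moment_Bmat (by rwa [hβq']), hβq, hβq']
    refine Finset.prod_congr rfl fun i _ => ?_
    have hi : α i ≤ 3 := (Finset.single_le_sum (fun j _ => Nat.zero_le (α j)) (Finset.mem_univ i)).trans hα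
    interval_cases h : α i
    · exact e0
    · exact e1 1 (by decide)
    · exact e2
    · exact e1 3 (by decide)
  · intro h
    have h0 := congrFun h 0
    set e : Fin g → ℤ := Pi.single (⟨0, hg⟩ : Fin g) 1 with he
    have h1 := congrFun h e
    rw [gauss, gauss, wt_Bmat, wt_Bmat] at h0 h1
    have p0 : ∀ z : ℂ, ∏ i : Fin g, z ^ (((0 : Fin g → ℤ) i).natAbs ^ 2) = 1 := by
      intro z; simp
    have p1 : ∀ z : ℂ, ∏ i : Fin g, z ^ ((e i).natAbs ^ 2) = z := by
      intro z
      rw [Finset.prod_eq_single (⟨0, hg⟩ : Fin g)]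
      · simp [he]
      · intro j _ hj
        have : e j = 0 := by rw [he, Pi.single_eq_of_ne hj]
        rw [this]
        simp
      · simp
    rw [p0, p0] at h0
    rw [p1, p1, hβq, hβq'] at h1
    have h2 : theta 0 (Bmat g β) = theta 0 (Bmat g β') := by
      have := congrArg (fun z => z⁻¹) h0
      simpa using this
    rw [h2] at h1
    have h3 : q = q' := by
      have := congrArg (fun z => z * theta 0 (Bmat g β')) h1
      simpa [div_mul_cancel₀ _ hθ'] using this
    exact him (Complex.conj_eq_iff_im.1 h3.symm)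

end Pool.Agent.Results.MP_e16cda_ag.ThreeMomentsFail
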